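import Pool.Agent.H72.RG.Final
import Pool.Agent.H4.RR.Final

/-!
# Lehmer bounds for finite rank groups of radicals with exponents composed of finitely many primes

Let `G = 𝔾_m` and let `K` be any number field. Let `Λ` be any finitely generated subgroup of `K̄*` and `S` any
finite set of primes. We prove: there is `c > 0` such that for every group `Γ ⊇ Λ`, all of whose elements
`γ` satisfy `γ^N t ∈ Λ` for a root of unity `t` and an integer `N` composed of primes of `S`, the Lehmer
inequality `[L(α) : L] h(α) ≥ c`, `L = K(Γ)`, holds for all `α` whose norm to `L` is not in the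
saturation of `Γ`; in particular `h(α) ≥ c` for all `α ∈ L*` outside the saturation of `Γ`.
-/

set_option autoImplicit false

open NumberField IntermediateField

namespace Pool.Agent.Results.MP_187c26_nt.FinitePrimeRadicals

section Definitions

variable {K : Type} [Field K]

/-- The field generated over `K` by the elements of `Γ`. -/
noncomputable def fieldOf (Γ : Subgroup (AlgebraicClosure K)ˣ) :
    IntermediateField K (AlgebraicClosure K) :=
  IntermediateField.adjoin K {y | ∃ γ ∈ Γ, y = (γ : AlgebraicClosure K)}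

/-- The saturation of `Γ`. -/
def sat (Γ : Subgroup (AlgebraicClosure K)ˣ) : Set (AlgebraicClosure K)ˣ :=
  {x | ∃ n : ℕ, 1 ≤ n ∧ x ^ n ∈ Γ}

/-- The degree of `α` over `L`. -/
noncomputable def degreeOver (L : IntermediateField K (AlgebraicClosure K))
    (α : AlgebraicClosure K) : ℕ :=
  Module.finrank L L⟮α⟯

/-- The norm of `α` from `L(α)` to `L`, as an element of the algebraic closure. -/
noncomputable def normTo (L : IntermediateField K (AlgebraicClosure K))
    (α : AlgebraicClosure K) : AlgebraicClosure K :=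
  algebraMap L (AlgebraicClosure K) (Algebra.norm L (AdjoinSimple.gen L α))

/-- The absolute logarithmic Weil height is at least `c` on `K(Γ)` outside the saturation of `Γ`,
and, more generally, `[K(Γ)(α) : K(Γ)] h(α) ≥ c` for every `α ≠ 0` algebraic over `K` whose norm to
`K(Γ)` is outside the saturation of `Γ`. -/
def LehmerBound [CharZero K] (Γ : Subgroup (AlgebraicClosure K)ˣ) (c : ℝ) : Prop :=
  (∀ α : (AlgebraicClosure K)ˣ, (α : AlgebraicClosure K) ∈ fieldOf Γ → α ∉ sat Γ →
    c ≤ absLogHeight₁ (α : AlgebraicClosure K)) ∧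
  (∀ α : (AlgebraicClosure K)ˣ,
    (∀ g ∈ sat Γ, (g : AlgebraicClosure K) ≠ normTo (fieldOf Γ) (α : AlgebraicClosure K)) →
    c ≤ degreeOver (fieldOf Γ) (α : AlgebraicClosure K) *
      absLogHeight₁ (α : AlgebraicClosure K))

/-- `Λ ⊆ Γ`, and every `γ ∈ Γ` is a radical of an element of `Λ`, up to a root of unity, with an
exponent `N` all of whose prime factors lie in `S`: `γ^N t ∈ Λ` for some root of unity `t`. -/
def Between (Λ : Subgroup (AlgebraicClosure K)ˣ) (S : Finset ℕ)
    (Γ : Subgroup (AlgebraicClosure K)ˣ) : Prop :=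
  Λ ≤ Γ ∧ ∀ γ ∈ Γ, ∃ N : ℕ, 1 ≤ N ∧ (∀ q : ℕ, q.Prime → q ∣ N → q ∈ S) ∧
    ∃ t : (AlgebraicClosure K)ˣ, (∃ n : ℕ, 1 ≤ n ∧ t ^ n = 1) ∧ γ ^ N * t ∈ Λ

end Definitions

/-- For `α ∈ L` the norm of `α` to `L` is `α`. -/
lemma normTo_of_mem {K : Type} [Field K] (L : IntermediateField K (AlgebraicClosure K))
    (α : AlgebraicClosure K) (hα : α ∈ L) : degreeOver L α = 1 ∧ normTo L α = α := by
  have hbot : L⟮α⟯ = ⊥ := by
    rw [adjoin_simple_eq_bot_iff, IntermediateField.mem_bot]
    exact ⟨⟨α, hα⟩, rfl⟩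
  have hfr : Module.finrank L L⟮α⟯ = 1 := by
    rw [hbot]
    exact IntermediateField.finrank_bot
  refine ⟨hfr, ?_⟩
  have h1 : AdjoinSimple.gen L α = algebraMap L L⟮α⟯ ⟨α, hα⟩ := rfl
  unfold normTo
  rw [h1, Algebra.norm_algebraMap, hfr, pow_one]
  rfl

/-- **Lehmer bounds for finite rank groups of radicals with exponents composed of finitely many
primes.** Let `K` be a number field, `Λ` a finitely generated subgroup of `K̄*` and `S` a finite set
of primes. There is `c > 0` such that `LehmerBound Γ c` holds for every group `Γ` between `Λ` and the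
group of all radicals of elements of `Λ` with exponents composed of primes of `S`, times all roots of
unity. -/
theorem result (K : Type) [Field K] [NumberField K] (Λ : Subgroup (AlgebraicClosure K)ˣ)
    (hΛ : Λ.FG) (S : Finset ℕ) :
    ∃ c : ℝ, 0 < c ∧
      ∀ Γ : Subgroup (AlgebraicClosure K)ˣ, Between Λ S Γ → LehmerBound Γ c := by
  classical
  obtain ⟨c, hc, h⟩ := Pool.Agent.H72.RG.final_S (K := K) (Ω := AlgebraicClosure K) Λ hΛ
    (S.filter Nat.Prime) (fun p hp => (Finset.mem_filter.1 hp).2)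
  refine ⟨c, hc, fun Γ hΓ => ?_⟩
  have h1 : ∀ α : (AlgebraicClosure K)ˣ, (α : AlgebraicClosure K) ∈ fieldOf Γ → α ∉ sat Γ →
      c ≤ absLogHeight₁ (α : AlgebraicClosure K) := by
    intro α hα hsat
    refine h Γ hΓ.1 ?_ α hα fun n hn hmem => hsat ⟨n, hn, hmem⟩
    intro γ hγ
    obtain ⟨N, hN, hNS, t, ht, hγt⟩ := hΓ.2 γ hγ
    exact ⟨N, hN, fun q hq hqN => Finset.mem_filter.2 ⟨hNS q hq hqN, hq⟩, t, ht, hγt⟩
  exact ⟨h1, fun α hα => Pool.Agent.H4.RR.from_norm _ _ c h1 α hα⟩

end Pool.Agent.Results.MP_187c26_nt.FinitePrimeRadicals
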