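import Pool.Agent.H4.RR.Final
import Pool.Agent.H11.FR.Index
import Pool.Agent.H11.FR.IdxB
import Pool.Agent.H11.HV.Main
import Pool.Agent.H72.PB.HTwist

/-!
# Lehmer bounds for fields of radicals, in all dimensions

Let `K` be a number field and let `b_1, …, b_r` be pairwise coprime nonzero nonunits of the ring of
integers of `K` (for instance distinct primes, or generators of powers of distinct prime ideals).
Let `Γ_b` be the group of all radicals of the group `⟨b_1, …, b_r⟩`: all `x ∈ K̄*` with
`x^n ∈ ⟨b_1, …, b_r⟩` for some `n ≥ 1`. This is a saturated group of rank `r`; it contains all roots of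
unity. Let `R_b` be the ring generated by the algebraic integers of `K(μ_∞)` and those of `Γ_b`. An element
`α ≠ 0` is regular if `t α ∈ R_b` and `(1 - t) α⁻¹ ∈ R_b` for some `t ∈ R_b` (the fractional ideal
generated by `1` and `α` is invertible). It lies in a radical field (with constant `c`) if
`α ∈ K(ξ, x_1, …, x_r)`, `ξ^n = 1`, `x_i^(m_i) = b_i`, where `n`, `m_1 b_1, …, m_r b_r` are pairwise coprime and
`∑ i, log [𝓞_{K(x_i)} : 𝓞 K [x_i]] / m_i ≤ c`.

We prove: there is `c > 0` with `h(α) ≥ c` for all `α ∉ Γ_b` which are regular or lie in a radical field,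
`[L(α) : L] h(α) ≥ c` for every field `L` and every `α ≠ 0` whose norm to `L` is not in `Γ_b` and is regular or
lies in a radical field, and `ω_L(V) μ_ess(V) ≥ c` for all `n`, all fields `L` and all (geometrically irreducible)
hypersurfaces `V` of `𝔾_m^n` such that two of the coefficients at the vertices of the Newton polytope of the equation
of `V` over `L` have a quotient which is not in `Γ_b` and is regular or lies in a radical field. If `b_i` is squarefree (`b_i ∉ P^2` for all maximal ideals), then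
`log [𝓞_{K(x_i)} : 𝓞 K [x_i]] / m_i ≤ [K : ℚ] ∑ log p / p`, where `p` runs over the primes dividing `m_i` such that
`b_i` is a `p`-th power modulo `P^2` for some `P ∣ p`, `b_i ∉ P`, if `m_i` is not divisible by the squares of these
`p` and they are unramified in `K`. For `K = ℚ` these are the `p` with `p^2 ∣ b_i^(p-1) - 1`.
-/

set_option autoImplicit false

open NumberField IntermediateField Filter Topology

namespace Pool.Agent.Results.MP_187c26_nt.RadicalFields

/-- The group of points over the algebraic closure of `K` of the torus `𝔾_m^n`. -/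
abbrev Torus (K : Type) [Field K] (n : ℕ) : Type := Fin n → (AlgebraicClosure K)ˣ

section Definitions

variable {K : Type} [Field K]

/-- The degree of `α` over `L`. -/
noncomputable def degreeOver (L : IntermediateField K (AlgebraicClosure K))
    (α : AlgebraicClosure K) : ℕ :=
  Module.finrank L L⟮α⟯

/-- The norm of `α` from `L(α)` to `L`, as an element of the algebraic closure. -/
noncomputable def normTo (L : IntermediateField K (AlgebraicClosure K))
    (α : AlgebraicClosure K) : AlgebraicClosure K :=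
  algebraMap L (AlgebraicClosure K) (Algebra.norm L (AdjoinSimple.gen L α))

/-- All radicals of the group generated by the `b i`: the `x ∈ K̄*` such that `x ^ n` lies in the group
generated by the `b i` for some `n ≥ 1`. -/
noncomputable def radicals {r : ℕ} (b : Fin r → 𝓞 K) : Subgroup (AlgebraicClosure K)ˣ where
  carrier := {x | ∃ n : ℕ, 1 ≤ n ∧ x ^ n ∈ Subgroup.closure
    {u : (AlgebraicClosure K)ˣ | ∃ i, (u : AlgebraicClosure K) =
      algebraMap K (AlgebraicClosure K) (b i : K)}}
  one_mem' := ⟨1, le_rfl, by rw [pow_one]; exact Subgroup.one_mem _⟩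
  mul_mem' := by
    rintro a b ⟨n, hn, ha⟩ ⟨k, hk, hb⟩
    refine ⟨n * k, Nat.mul_pos hn hk, ?_⟩
    rw [mul_pow, pow_mul, mul_comm n k, pow_mul b]
    exact Subgroup.mul_mem _ (Subgroup.pow_mem _ ha _) (Subgroup.pow_mem _ hb _)
  inv_mem' := by
    rintro a ⟨n, hn, ha⟩
    exact ⟨n, hn, by rw [inv_pow]; exact Subgroup.inv_mem _ ha⟩

/-- The field `K(μ_∞)` generated over `K` by all roots of unity. -/
noncomputable def cyclotomicField (K : Type) [Field K] :
    IntermediateField K (AlgebraicClosure K) :=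
  IntermediateField.adjoin K {ξ : AlgebraicClosure K | ∃ n : ℕ, 1 ≤ n ∧ ξ ^ n = 1}

/-- The ring generated by the algebraic integers of `K(μ_∞)` and those of `radicals b`. -/
noncomputable def radRing {r : ℕ} (b : Fin r → 𝓞 K) : Subring (AlgebraicClosure K) :=
  Subring.closure {z | IsIntegral ℤ z ∧
    (z ∈ cyclotomicField K ∨ ∃ γ ∈ radicals b, z = (γ : AlgebraicClosure K))}

/-- `α` is regular: `t α` and `(1 - t) α⁻¹` lie in `radRing b` for some `t ∈ radRing b`. -/
def IsRegular {r : ℕ} (b : Fin r → 𝓞 K) (α : AlgebraicClosure K) : Prop :=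
  ∃ t ∈ radRing b, t * α ∈ radRing b ∧ (1 - t) * α⁻¹ ∈ radRing b

/-- The index of the order `𝓞 K [x]` in the ring of integers of `K(x)`. -/
noncomputable def orderIndex (x : AlgebraicClosure K) : ℕ :=
  (Algebra.adjoin (𝓞 K) ({x} : Set (AlgebraicClosure K))).toSubring.toAddSubgroup.relIndex
    (K⟮x⟯.toSubalgebra.toSubring ⊓
      (integralClosure ℤ (AlgebraicClosure K)).toSubring).toAddSubgroup

/-- `α` lies in a field `K(ξ, x_1, …, x_r)`, `ξ ^ n = 1`, `x_i ^ m_i = b_i`, where `n`, `m_1 b_1, …, m_r b_r` are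
pairwise coprime and `∑ i, log (orderIndex (x i)) / m i ≤ c`. -/
def InRadicalField {r : ℕ} (b : Fin r → 𝓞 K) (c : ℝ) (α : AlgebraicClosure K) : Prop :=
  ∃ (n : ℕ) (m : Fin r → ℕ) (ξ : AlgebraicClosure K) (x : Fin r → AlgebraicClosure K),
    1 ≤ n ∧ (∀ i, 1 ≤ m i) ∧ (∀ i, IsCoprime (n : 𝓞 K) ((m i : 𝓞 K) * b i)) ∧
    (∀ i j, i ≠ j → IsCoprime ((m i : 𝓞 K) * b i) ((m j : 𝓞 K) * b j)) ∧
    ξ ^ n = 1 ∧ (∀ i, x i ^ m i = algebraMap K (AlgebraicClosure K) (b i : K)) ∧
    ∑ i, Real.log (orderIndex (x i) : ℝ) / m i ≤ c ∧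
    α ∈ IntermediateField.adjoin K ({ξ} ∪ Set.range x)

/-- `α` is regular or lies in a radical field (with constant `c`). -/
def IsTame {r : ℕ} (b : Fin r → 𝓞 K) (c : ℝ) (α : AlgebraicClosure K) : Prop :=
  IsRegular b α ∨ InRadicalField b c α

/-- The coordinate vector of a point of `𝔾_m^n`. -/
def coords {n : ℕ} (x : Torus K n) : Fin n → AlgebraicClosure K :=
  fun i => (x i : AlgebraicClosure K)

/-- The canonical height `h_G(x) = ∑ h(x_i)`, with `h` the absolute logarithmic Weil height. -/
noncomputable def height [CharZero K] {n : ℕ} (x : Torus K n) : ℝ :=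
  ∑ i, absLogHeight₁ (coords x i)

/-- The ideal of all polynomials over the algebraic closure vanishing on `V`. -/
noncomputable def idealOf {n : ℕ} (V : Set (Torus K n)) :
    Ideal (MvPolynomial (Fin n) (AlgebraicClosure K)) :=
  MvPolynomial.vanishingIdeal (AlgebraicClosure K) (coords '' V)

/-- `Z` is a Zariski closed subset of `𝔾_m^n` defined over `L`. -/
def IsClosedOver {n : ℕ} (L : IntermediateField K (AlgebraicClosure K)) (Z : Set (Torus K n)) :
    Prop :=
  ∃ J : Ideal (MvPolynomial (Fin n) L),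
    Z = {x | coords x ∈ MvPolynomial.zeroLocus (AlgebraicClosure K) J}

/-- Irreducible hypersurfaces: closed subsets whose ideal is prime and generated by one nonzero
polynomial. -/
def IsHypersurface {n : ℕ} (V : Set (Torus K n)) : Prop :=
  IsClosedOver ⊤ V ∧ (idealOf V).IsPrime ∧ ∃ g, g ≠ 0 ∧ idealOf V = Ideal.span {g}

/-- `f` is the equation of `V` over `L`: irreducible over `L` and zero on `V`. -/
def IsEquation {n : ℕ} (L : IntermediateField K (AlgebraicClosure K)) (V : Set (Torus K n))
    (f : MvPolynomial (Fin n) L) : Prop :=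
  Irreducible f ∧ MvPolynomial.map (algebraMap L (AlgebraicClosure K)) f ∈ idealOf V

/-- `v` is a vertex of the Newton polytope of `f`: some linear form has its only minimum on the
exponents of `f` at `v`. -/
def IsVertex {n : ℕ} {L : IntermediateField K (AlgebraicClosure K)} (f : MvPolynomial (Fin n) L)
    (v : Fin n →₀ ℕ) : Prop :=
  v ∈ f.support ∧ ∃ lam : Fin n → ℤ, ∀ m ∈ f.support, m ≠ v →
    ∑ l, lam l * (v l : ℤ) < ∑ l, lam l * (m l : ℤ)

/-- All irreducible components of `Z` have dimension `d`. -/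
def IsEquidimensional {n : ℕ} (Z : Set (Torus K n)) (d : ℕ) : Prop :=
  Z.Nonempty ∧ ∀ P ∈ (idealOf Z).minimalPrimes,
    ringKrullDim (MvPolynomial (Fin n) (AlgebraicClosure K) ⧸ P) = d

/-- The space of functions on `Z` that are restrictions of polynomials of degree at most `m`
in each variable, that is, of global sections of `O(m,...,m)` on `(ℙ^1)^n`. -/
noncomputable def sections {n : ℕ} (Z : Set (Torus K n)) (m : ℕ) :
    Submodule (AlgebraicClosure K) (Z → AlgebraicClosure K) :=
  (MvPolynomial.restrictDegree (Fin n) (AlgebraicClosure K) m).map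
    (LinearMap.pi fun z : Z => (MvPolynomial.aeval (coords (z : Torus K n))).toLinearMap)

/-- `Z`, of pure dimension `d`, has degree `δ` with respect to `O(1,...,1)` on `(ℙ^1)^n`:
its Hilbert function is asymptotic to `δ m^d / d!`. -/
def HasDegree {n : ℕ} (Z : Set (Torus K n)) (d : ℕ) (δ : ℝ) : Prop :=
  Tendsto (fun m : ℕ => (d.factorial : ℝ) *
    (Module.finrank (AlgebraicClosure K) (sections Z m) : ℝ) / (m : ℝ) ^ d) atTop (𝓝 δ)

/-- `ω = deg(Z)^(1/(n - dim Z))` for some equidimensional Zariski closed `Z ⊊ 𝔾_m^n` defined over `L` and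
containing `V`. The obstruction index `ω_L(V)` is the minimum of these `ω`. -/
def ObstructionValue {n : ℕ} (L : IntermediateField K (AlgebraicClosure K)) (V : Set (Torus K n))
    (ω : ℝ) : Prop :=
  ∃ (Z : Set (Torus K n)) (d : ℕ) (δ : ℝ), IsClosedOver L Z ∧ Z ≠ Set.univ ∧
    IsEquidimensional Z d ∧ V ⊆ Z ∧ HasDegree Z d δ ∧ ω = δ ^ (1 / ((n : ℝ) - d))

/-- The points of height at most `θ` are Zariski dense in `V`. The essential minimum `μ_ess(V)` is the
infimum of these `θ`. -/
def EssentialBound [CharZero K] {n : ℕ} (V : Set (Torus K n)) (θ : ℝ) : Prop :=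
  idealOf {x | x ∈ V ∧ height x ≤ θ} ≤ idealOf V

/-- The three bounds with the constant `c`: for tame numbers outside `radicals b`, for numbers whose norm to
`L` is tame and not in `radicals b`, and for hypersurfaces with a tame quotient of two vertex coefficients
which is not in `radicals b`. -/
def LehmerBound [CharZero K] {r : ℕ} (b : Fin r → 𝓞 K) (c : ℝ) : Prop :=
  (∀ α : (AlgebraicClosure K)ˣ, IsTame b c (α : AlgebraicClosure K) → α ∉ radicals b →
    c ≤ absLogHeight₁ (α : AlgebraicClosure K)) ∧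
  (∀ (L : IntermediateField K (AlgebraicClosure K)) (α : (AlgebraicClosure K)ˣ),
    IsTame b c (normTo L (α : AlgebraicClosure K)) →
    (∀ g ∈ radicals b, (g : AlgebraicClosure K) ≠ normTo L (α : AlgebraicClosure K)) →
    c ≤ degreeOver L (α : AlgebraicClosure K) * absLogHeight₁ (α : AlgebraicClosure K)) ∧
  (∀ (n : ℕ) (L : IntermediateField K (AlgebraicClosure K)) (V : Set (Torus K n))
    (f : MvPolynomial (Fin n) L) (v w : Fin n →₀ ℕ), IsHypersurface V → IsEquation L V f →
    IsVertex f v → IsVertex f w →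
    IsTame b c (((f.coeff v : L) : AlgebraicClosure K) / ((f.coeff w : L) : AlgebraicClosure K)) →
    (∀ g ∈ radicals b, (g : AlgebraicClosure K) ≠
      ((f.coeff v : L) : AlgebraicClosure K) / ((f.coeff w : L) : AlgebraicClosure K)) →
    ∀ ω θ : ℝ, ObstructionValue L V ω → EssentialBound V θ → c ≤ ω * θ)

/-- The index of `𝓞 K [x]`, `x ^ m = b i`, is small if `b i` is squarefree and `W` is a finite set of primes,
unramified in `K`, which divide `m` exactly once, such that `b i` is not a `p`-th power modulo `P ^ 2` for the other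
primes `p` dividing `m` and maximal ideals `P` above `p` with `b i ∉ P`. -/
def IndexBound [CharZero K] {r : ℕ} (b : Fin r → 𝓞 K) : Prop :=
  ∀ (i : Fin r) (m : ℕ) (x : AlgebraicClosure K) (W : Finset ℕ), 1 ≤ m →
    x ^ m = algebraMap K (AlgebraicClosure K) (b i : K) →
    (∀ p ∈ W, p.Prime ∧ p ∣ m ∧ ¬ p ^ 2 ∣ m ∧
      ∀ P : Ideal (𝓞 K), P.IsMaximal → (p : 𝓞 K) ∉ P ^ 2) →
    (∀ P : Ideal (𝓞 K), P.IsMaximal → b i ∉ P ^ 2 ∧ (b i ∉ P → ∀ p : ℕ, p.Prime → p ∣ m →
      p ∉ W → (p : 𝓞 K) ∈ P → ∀ a : 𝓞 K, b i - a ^ p ∉ P ^ 2)) →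
    Real.log (orderIndex x : ℝ) / m ≤ Module.finrank ℚ K * ∑ p ∈ W, Real.log (p : ℝ) / p

end Definitions

lemma closure_pow {G : Type} [CommGroup G] {ι : Type} [Fintype ι] [DecidableEq ι] (β : ι → G) :
    ∀ x : G, x ∈ Subgroup.closure {u : G | ∃ i, u = β i} ↔ ∃ e : ι → ℤ, x = ∏ i, β i ^ e i := by
  intro x
  constructor
  · intro hx
    induction hx using Subgroup.closure_induction with
    | mem y hy =>
      obtain ⟨i, rfl⟩ := hy
      refine ⟨Pi.single i 1, ?_⟩
      rw [Finset.prod_eq_single i]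
      · simp
      · intro j _ hj
        rw [Pi.single_eq_of_ne hj, zpow_zero]
      · intro h
        exact absurd (Finset.mem_univ i) h
    | one => exact ⟨0, by simp⟩
    | mul y z _ _ hy hz =>
      obtain ⟨e, rfl⟩ := hy
      obtain ⟨f, rfl⟩ := hz
      refine ⟨e + f, ?_⟩
      rw [← Finset.prod_mul_distrib]
      exact Finset.prod_congr rfl fun i _ => (zpow_add _ _ _).symm
    | inv y _ hy =>
      obtain ⟨e, rfl⟩ := hy
      refine ⟨-e, ?_⟩
      rw [← Finset.prod_inv_distrib]
      exact Finset.prod_congr rfl fun i _ => (zpow_neg _ _).symm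
  · rintro ⟨e, rfl⟩
    apply Subgroup.prod_mem
    intro i _
    exact Subgroup.zpow_mem _ (Subgroup.subset_closure (Set.mem_setOf.mpr ⟨i, rfl⟩)) _

/-- **Lehmer bounds for fields of radicals.** Let `K` be a number field and let the `b i` be pairwise
coprime nonzero nonunits of the ring of integers of `K`. There is `c > 0` such that every tame `α ∉ Γ_b` has
height at least `c`, `[L(α) : L] h(α) ≥ c` for all fields `L` and all `α` whose norm to `L` is tame and not in `Γ_b`,
and `ω_L(V) μ_ess(V) ≥ c` for all `n`, all fields `L` and all irreducible hypersurfaces `V` of `𝔾_m^n` whose equation over `L`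
has two vertex coefficients with a tame quotient outside `Γ_b`; the index of `𝓞 K [x]`, `x ^ m = b i`, is bounded
by `IndexBound`. -/
theorem result (K : Type) [Field K] [NumberField K] (r : ℕ) (b : Fin r → 𝓞 K)
    (hb : ∀ i, b i ≠ 0 ∧ ¬ IsUnit (b i)) (hcop : ∀ i j, i ≠ j → IsCoprime (b i) (b j)) :
    (∃ c : ℝ, 0 < c ∧ LehmerBound b c) ∧ IndexBound b := by
  classical
  have hb0 : ∀ i, algebraMap K (AlgebraicClosure K) (b i : K) ≠ 0 := by
    intro i
    rw [Ne, map_eq_zero]
    exact fun h => (hb i).1 (RingOfIntegers.ext h)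
  set β : Fin r → (AlgebraicClosure K)ˣ := fun i => Units.mk0 _ (hb0 i) with hβdef
  have hβ : ∀ i, (β i : AlgebraicClosure K) = algebraMap K (AlgebraicClosure K) (b i : K) :=
    fun i => rfl
  have hset : {u : (AlgebraicClosure K)ˣ | ∃ i, (u : AlgebraicClosure K) =
      algebraMap K (AlgebraicClosure K) (b i : K)} = {u | ∃ i, u = β i} := by
    ext u
    constructor
    · rintro ⟨i, hi⟩
      exact ⟨i, Units.ext hi⟩
    · rintro ⟨i, hi⟩
      exact ⟨i, by rw [hi, hβ]⟩
  have hsat : ∀ x, x ∈ radicals b ↔ x ∈ Pool.Agent.H4.OG.satG β := by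
    intro x
    constructor
    · rintro ⟨n, hn, hx⟩
      rw [hset, closure_pow] at hx
      obtain ⟨e, he⟩ := hx
      exact ⟨n, hn, e, he⟩
    · rintro ⟨n, hn, e, he⟩
      refine ⟨n, hn, ?_⟩
      rw [hset, closure_pow]
      exact ⟨e, he⟩
  have hring : radRing b = Pool.Agent.H4.OG.radRingK K (AlgebraicClosure K) β := by
    unfold radRing Pool.Agent.H4.OG.radRingK
    congr 1
    ext z
    constructor
    · rintro ⟨h1, h2 | ⟨γ, hγ, h3⟩⟩
      · exact ⟨h1, Or.inl h2⟩
      · exact ⟨h1, Or.inr ⟨γ, (hsat γ).1 hγ, h3⟩⟩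
    · rintro ⟨h1, h2 | ⟨γ, hγ, h3⟩⟩
      · exact ⟨h1, Or.inl h2⟩
      · exact ⟨h1, Or.inr ⟨γ, (hsat γ).2 hγ, h3⟩⟩
  have hidx : ∀ x : AlgebraicClosure K, orderIndex x = Pool.Agent.H11.FR.ordIdx K x :=
    fun x => rfl
  refine ⟨?_, ?_⟩
  · obtain ⟨c₁, hc₁, hmain⟩ := Pool.Agent.H4.OG.main_regular K (AlgebraicClosure K) r b
      (fun i => (hb i).2) hcop β hβ
    obtain ⟨c₂, hc₂, hidxmain⟩ := Pool.Agent.H11.FR.main_index K (AlgebraicClosure K) r b
      (fun i => (hb i).2) hcop β hβ
    have key : ∀ α : (AlgebraicClosure K)ˣ, IsTame b (min c₁ c₂) (α : AlgebraicClosure K) →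
        α ∉ radicals b → min c₁ c₂ ≤ absLogHeight₁ (α : AlgebraicClosure K) := by
      rintro α (⟨t, ht, h1, h2⟩ | ⟨n, m, ξ, x, hn, hm, hnb, hmb, hξ, hx, hsum, hmem⟩) hα
      · rw [hring] at ht h1 h2
        exact (min_le_left _ _).trans (hmain α ⟨t, ht, h1, h2⟩ (fun h => hα ((hsat α).2 h)))
      · exact (min_le_right _ _).trans (hidxmain n m ξ x hn hm hnb hmb hξ hx
          (hsum.trans (min_le_right _ _)) α hmem (fun h => hα ((hsat α).2 h)))
    refine ⟨min c₁ c₂, lt_min hc₁ hc₂, key, fun L α hreg hα => ?_, ?_⟩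
    · have h0 := Pool.Agent.H4.RR.normTo_ne_zero L (α : AlgebraicClosure K) α.ne_zero
      have h1 := key (Units.mk0 _ h0) hreg (fun hS => hα _ hS rfl)
      exact h1.trans (Pool.Agent.H4.RR.norm_height_le K L (α : AlgebraicClosure K))
    · rintro n L V f v w ⟨-, hprime, g, hg0, hg⟩ ⟨hf, hfV⟩ hv hw htame hnot ω θ
        ⟨Z, d, δ, hZ, hne, hd, hVZ, hdeg, rfl⟩ hθ
      have hgp : Prime g := by
        rw [hg] at hprime
        exact (Ideal.span_singleton_prime hg0).1 hprime
      have hv0 : ((f.coeff v : L) : AlgebraicClosure K) ≠ 0 := by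
        rw [Ne, ZeroMemClass.coe_eq_zero]
        exact MvPolynomial.mem_support_iff.1 hv.1
      have hw0 : ((f.coeff w : L) : AlgebraicClosure K) ≠ 0 := by
        rw [Ne, ZeroMemClass.coe_eq_zero]
        exact MvPolynomial.mem_support_iff.1 hw.1
      have h1 := key (Units.mk0 _ (div_ne_zero hv0 hw0)) htame (fun hS => hnot _ hS rfl)
      have hint : ∀ z : AlgebraicClosure K, IsIntegral ℚ z := fun z =>
        Pool.Agent.H72.PB.int_all K z
      have hgal : IsGalois L (AlgebraicClosure K) := by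
        have : Algebra.IsAlgebraic L (AlgebraicClosure K) :=
          Algebra.IsAlgebraic.tower_top (K := K) L
        have : IsAlgClosure L (AlgebraicClosure K) := ⟨inferInstance, inferInstance⟩
        infer_instance
      exact h1.trans (Pool.Agent.H11.HV.vertex_ineq hint L V g hgp hg f hf hfV v w hv hw Z d δ hZ
        hne hd hdeg hVZ θ hθ)
  · intro i m x W hm hx hW hgood
    exact Pool.Agent.H11.FR.ordIdx_bound (b i) (hb i).2 m hm W hW hgood x hx

end Pool.Agent.Results.MP_187c26_nt.RadicalFields
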