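import Pool.Agent.H72.PB.FinalB

/-!
# A relative Dobrowolski bound over the fields generated by the radicals of a group of rank one

Let `G = 𝔾_m`, `K` a number field, `Λ` a finitely generated subgroup of `K̄*` of rank one and `S` a finite set
of primes. We prove: there are `c > 0` and `A` such that for every `N ≥ 1`, every group `Γ ⊇ Λ` all of whose
elements `γ` satisfy `γ^(N M) ∈ Λ` for some `M = M(γ)` composed of primes of `S` (the numbers `M` are not
bounded), and every `α ∈ K̄*` outside the saturation of `Γ`, of degree `D = [K(Γ)(α) : K(Γ)]`,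

  `D h(α) ≥ c / (log (3 N D))^A`.

For `N = 1` and `Γ` the group of all `S`-radicals of `Λ` this is a lower bound of the shape of Dobrowolski's
over the infinite, non abelian extension `K(Γ)` of `K`.
-/

set_option autoImplicit false

open NumberField IntermediateField

namespace Pool.Agent.Results.MP_187c26_nt.RelativeDobrowolski

section Definitions

variable {K : Type} [Field K]

/-- The field generated over `K` by the elements of `Γ`. -/
noncomputable def fieldOf (Γ : Subgroup (AlgebraicClosure K)ˣ) :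
    IntermediateField K (AlgebraicClosure K) :=
  IntermediateField.adjoin K {y | ∃ γ ∈ Γ, y = (γ : AlgebraicClosure K)}

/-- The saturation of `Γ`. -/
def sat (Γ : Subgroup (AlgebraicClosure K)ˣ) : Set (AlgebraicClosure K)ˣ :=
  {x | ∃ n : ℕ, 1 ≤ n ∧ x ^ n ∈ Γ}

/-- The degree of `α` over `L`. -/
noncomputable def degreeOver (L : IntermediateField K (AlgebraicClosure K))
    (α : AlgebraicClosure K) : ℕ :=
  Module.finrank L L⟮α⟯

/-- `Λ` has rank one: it contains an element `b` of infinite order such that every element of `Λ`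
has a positive power in the group generated by `b`. -/
def RankOne (Λ : Subgroup (AlgebraicClosure K)ˣ) : Prop :=
  ∃ b ∈ Λ, (∀ n : ℕ, 1 ≤ n → b ^ n ≠ 1) ∧ ∀ γ ∈ Λ, ∃ m : ℕ, 1 ≤ m ∧ ∃ j : ℤ, γ ^ m = b ^ j

/-- `Γ` contains `Λ`, and every `γ ∈ Γ` satisfies `γ^(N M) ∈ Λ` for some `M ≥ 1` all of whose prime
factors lie in `S`. -/
def Between (Λ : Subgroup (AlgebraicClosure K)ˣ) (S : Finset ℕ) (N : ℕ)
    (Γ : Subgroup (AlgebraicClosure K)ˣ) : Prop :=
  Λ ≤ Γ ∧ ∀ γ ∈ Γ, ∃ M : ℕ, 1 ≤ M ∧ (∀ q : ℕ, q.Prime → q ∣ M → q ∈ S) ∧ γ ^ (N * M) ∈ Λ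

end Definitions

/-- **A relative Dobrowolski bound over the fields of radicals of a group of rank one.** -/
theorem result (K : Type) [Field K] [NumberField K] (Λ : Subgroup (AlgebraicClosure K)ˣ)
    (hΛ : Λ.FG) (hrk : RankOne Λ) (S : Finset ℕ) (hS : ∀ p ∈ S, p.Prime) :
    ∃ (c : ℝ) (A : ℕ), 0 < c ∧
      ∀ N : ℕ, 1 ≤ N → ∀ Γ : Subgroup (AlgebraicClosure K)ˣ, Between Λ S N Γ →
        ∀ α : (AlgebraicClosure K)ˣ, α ∉ sat Γ →
          c / (Real.log (3 * N * degreeOver (fieldOf Γ) (α : AlgebraicClosure K))) ^ A ≤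
            degreeOver (fieldOf Γ) (α : AlgebraicClosure K) *
              absLogHeight₁ (α : AlgebraicClosure K) := by
  obtain ⟨b, hb, hb', hr⟩ := hrk
  obtain ⟨c, A, hc, h⟩ := Pool.Agent.H72.PB.final_b (K := K) (Ω := AlgebraicClosure K) Λ hΛ
    b hb hb' hr S hS
  refine ⟨c, A, hc, fun N hN Γ hΓ α hα => ?_⟩
  have h1 := h N hN Γ hΓ.1 hΓ.2 α fun n hn hmem => hα ⟨n, hn, hmem⟩
  have hint : IsIntegral (fieldOf Γ) (α : AlgebraicClosure K) := Algebra.IsIntegral.isIntegral _
  have hdeg : degreeOver (fieldOf Γ) (α : AlgebraicClosure K) =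
      (minpoly (fieldOf Γ) (α : AlgebraicClosure K)).natDegree :=
    IntermediateField.adjoin.finrank hint
  have hD : 1 ≤ degreeOver (fieldOf Γ) (α : AlgebraicClosure K) := by
    rw [hdeg]
    exact minpoly.natDegree_pos hint
  have hlog : 0 < Real.log (3 * N * degreeOver (fieldOf Γ) (α : AlgebraicClosure K)) := by
    apply Real.log_pos
    have h2 : (1 : ℝ) ≤ N := by exact_mod_cast hN
    have h3 : (1 : ℝ) ≤ degreeOver (fieldOf Γ) (α : AlgebraicClosure K) := by exact_mod_cast hD
    nlinarith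
  rw [div_le_iff₀ (pow_pos hlog A), hdeg]
  exact h1

end Pool.Agent.Results.MP_187c26_nt.RelativeDobrowolski
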